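import Pool.Agent.Run7.h414.DP.Fam
import Pool.Agent.Run7.h414.DP.TL
import Pool.Agent.N625.PT.K
import Pool.Agent.R501.LP1

/-!
# Least primes in almost all classes, for all the multiples of random moduli with determinantal digits

The digits of the random integer `v` are given by a determinantal random set `S` of positions (a determinantal point process
with an arbitrary Hermitian kernel): the digit number `i` is `y i` if `i ∈ S` and `x i ≠ y i` otherwise. Examples (their
existence is not used and not formalised): the edges of a uniform spanning tree of a graph with `k` edges; stationary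
determinantal processes with any symbol which is not almost everywhere `0` or almost everywhere `1` (for example the discrete
sine process with any density); independent digits; and all the events for such processes whose probability is at least
`1 / k ^ t`, for example a prescribed number of elements of `S`.

Definitions used (in `Pool.Agent.Run7.h414.DP.Law` and `Pool.Agent.Run7.h414.DP.Fam`): `DetLaw`, `GoodPos`, `DetDigits`.

Method: the characteristic function is `det (1 + D A)`; the inequality `|det N|² ≤ exp (tr N* N - k)` for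
`N = 1 + B D B*`, `A = B* B`, bounds it by `exp (- E)` with an energy `E` which is at least a constant times the number of
the good positions near the places where the frequency is far from the rational numbers with small denominators. So all the
multiples of the random integer have a thin large spectrum. The passage from this to the
variance of the primes in the residue classes is from the starting files (`Pool.Agent.N625.PT.t_var`,
`Pool.Agent.R501.LP`).

`∑ v ∈ range (b ^ k), (if P v then 0 else p v)` is the `p`-weight of the integers `v < b ^ k` without the property `P`.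
-/

set_option autoImplicit false

namespace Pool.Agent.Results.MP_42948a_nt.DeterminantalModuli

open Finset
open Pool.Agent.Run7.h414.DP (DetDigits fam_dc dom_le dc_tcls)

open Classical in
/-- The number of the reduced residue classes `a` modulo `d` whose least prime exceeds `x`. -/
noncomputable def lateClasses (x : ℝ) (d : ℕ) : ℕ :=
  ((range d).filter (fun a => Nat.Coprime a d ∧ ∀ p : ℕ, p.Prime → (p : ℝ) ≤ x → ¬ p % d = a)).card

/-- For all real `x` with `d ≤ x ≤ d log ^ T d` the number of the reduced residue classes modulo `d` whose least prime exceeds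
`x` is at most `(1 + ε) φ(d) / (1 + lam)`, where `x = lam φ(d) log d`. -/
def Good (ε : ℝ) (T d : ℕ) : Prop :=
  ∀ x : ℝ, (d : ℝ) ≤ x → x ≤ d * Real.log d ^ T →
    (lateClasses x d : ℝ) * (1 + x / ((Nat.totient d : ℝ) * Real.log d)) ≤ (1 + ε) * (Nat.totient d : ℝ)

lemma good_of (ε : ℝ) (hε : 0 < ε) (hε1 : ε ≤ 1) (T : ℕ) : ∃ Q₀ : ℕ, ∀ Q : ℕ, Q₀ ≤ Q → (∀ x : ℝ, (Q : ℝ) ≤ x → x ≤ Q * Real.log Q ^ T →
    |Pool.Agent.TH894.PV.G x Q - x * Real.log Q| ≤ ε / 4 * (x * Real.log Q)) → Good ε T Q := by
  obtain ⟨Q₀, h⟩ := Pool.Agent.R501.LP.lpg_of_var T ε hε hε1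
  refine ⟨Q₀ + 2, fun Q hQ hvar x hx1 hx2 => ?_⟩
  exact ((Pool.Agent.R501.LP.lpg_iff ε T Q (by omega)).1 (h Q (by omega) hvar) x hx1 hx2).1

open Classical in
/-- **The least primes in almost all classes, for all the multiples of moduli with determinantal digits.** Let `b ≥ 2`, `L`,
`η > 0`, `t`, `κ ≠ 0`, `B`, `J`, `W`, `T`, `U` and `0 < ε ≤ 1` be fixed and let `k` be large. Let `p` be dominated, up to the
factor `k ^ t`, by the distribution of an integer with `k` determinantal digits (`DetDigits b L η t k p`), and let `c` be
any integer with `|c| ≤ B b ^ k`. Then the `p`-weight of the integers `v < b ^ k` without the following property is at most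
`1 / k ^ U`: ALL the integers `q ≥ 1` at a distance of at most `k ^ W` from `c + κ v` and ALL `h` with `1 ≤ h ≤ k ^ J` are
such that for all real `x = lam φ(d) log d` with `d ≤ x ≤ d log ^ T d`, where `d = h q`, all but at most
`(1 + ε) φ(d) / (1 + lam)` of the reduced residue classes modulo `d` contain a prime `≤ x`. -/
theorem result (b L : ℕ) (hb : 2 ≤ b) (η : ℝ) (hη : 0 < η) (t : ℕ) (κ : ℤ) (hκ : κ ≠ 0)
    (B J W T U : ℕ) (ε : ℝ) (hε : 0 < ε) (hε1 : ε ≤ 1) :
    ∃ k₀ : ℕ, ∀ k : ℕ, k₀ ≤ k → ∀ p : ℕ → ℝ, DetDigits b L η t k p → ∀ c : ℤ, |c| ≤ B * (b : ℤ) ^ k →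
      ∑ v ∈ range (b ^ k), (if ∀ q : ℕ, 1 ≤ q → |(q : ℤ) - (c + κ * v)| ≤ (k : ℤ) ^ W →
        ∀ h : ℕ, 1 ≤ h → h ≤ k ^ J → Good ε T (h * q) then 0 else p v) ≤ 1 / (k : ℝ) ^ U := by
  obtain ⟨Q₀, h0⟩ := good_of ε hε hε1 T
  obtain ⟨k₀, hmain⟩ := Pool.Agent.N625.PT.t_var (dc_tcls b L hb η hη κ hκ) B J W T (U + t) (ε / 4) (by positivity)
    (by linarith) (Good ε T) Q₀ h0
  refine ⟨k₀ + 1, fun k hk p hp c hc => ?_⟩
  obtain ⟨μ, hμ, hpμ⟩ := fam_dc hp
  exact dom_le (by omega) hpμ _ _ (fun v h => h) (hmain k (by omega) μ hμ c hc)

end Pool.Agent.Results.MP_42948a_nt.DeterminantalModuli
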