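import Pool.Agent.Run7.h582.FM.VarT
import Pool.Agent.R501.LP1

/-!
# Least primes in almost all classes, for all the multiples of all the integers near `lam n * x + c n`, for almost every `x` of all measures with Fourier decay

Let `N n ≥ exp (n ^ η)`, and let `lam n`, `c n` be real numbers with `N n / log ^ T (N n) ≤ lam n ≤ B N n` and
`|c n| ≤ B N n`. A real number `x` is called generic if for all `J`, `S`, `W` and `ε > 0` and for all large `n` the following
holds for ALL the multiples `d = h q` with `1 ≤ h ≤ log ^ J (N n)` of ALL the integers `q ≥ 1` at a distance of at most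
`log ^ W (N n)` from `lam n * x + c n` and for all real `y = t φ(d) log d` with `d ≤ y ≤ d log ^ S d`: all but at most
`(1 + ε) φ(d) / (1 + t)` of the reduced residue classes modulo `d` contain a prime `≤ y`.

Almost every `x` is generic with respect to EVERY finite Borel measure with bounded support whose Fourier transform is
`O (|ξ| ^ (-δ))` for some `δ > 0`. Thus the set of the real numbers which are not generic has Fourier dimension zero.

The proof: the measure is replaced by finite families of real numbers with the same exponential sums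
(`Pool.Agent.Run7.h582.FM`); the large spectrum of all the multiples of the members of such families is thin, and then the
theorem of helper625 (`Pool.Agent.N625.PT`) gives the variance for all the multiples of almost all members, and
`Pool.Agent.R501.LP` the least primes; the properties of the exponential sums of finite families of real numbers are from
helper844's files (`Pool.Agent.Run7.h844.RP`).
-/

set_option autoImplicit false

namespace Pool.Agent.Results.MP_42948a_nt.FourierDecayMultiples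

open Finset Filter MeasureTheory

open Classical in
/-- The number of the reduced residue classes `a` modulo `d` whose least prime exceeds `y`. -/
noncomputable def lateClasses (y : ℝ) (d : ℕ) : ℕ :=
  ((range d).filter (fun a => Nat.Coprime a d ∧ ∀ p : ℕ, p.Prime → (p : ℝ) ≤ y → ¬ p % d = a)).card

/-- For all real `y` with `d ≤ y ≤ d log ^ S d` the number of the reduced residue classes modulo `d` whose least prime exceeds
`y` is at most `(1 + ε) φ(d) / (1 + t)`, where `y = t φ(d) log d`. -/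
def Good (ε : ℝ) (S d : ℕ) : Prop :=
  ∀ y : ℝ, (d : ℝ) ≤ y → y ≤ d * Real.log d ^ S →
    (lateClasses y d : ℝ) * (1 + y / ((Nat.totient d : ℝ) * Real.log d)) ≤ (1 + ε) * (Nat.totient d : ℝ)

/-- `N n ≥ exp (n ^ η)`, `|c n| ≤ B N n` and `N n / log ^ T (N n) ≤ lam n ≤ B N n` for large `n`. -/
def Scales (η : ℝ) (B T : ℕ) (N : ℕ → ℕ) (lam c : ℕ → ℝ) : Prop :=
  ∀ᶠ n : ℕ in atTop, Real.exp ((n : ℝ) ^ η) ≤ N n ∧ |c n| ≤ B * N n ∧ lam n ≤ B * N n ∧
    (N n : ℝ) ≤ lam n * Real.log (N n) ^ T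

/-- For all `J`, `S`, `W`, `ε > 0` and all large `n`, `Good ε S (h q)` holds for all `1 ≤ h ≤ log ^ J (N n)` and all the
integers `q ≥ 1` at a distance of at most `log ^ W (N n)` from `lam n * x + c n`. -/
def Generic (N : ℕ → ℕ) (lam c : ℕ → ℝ) (x : ℝ) : Prop :=
  ∀ J S W : ℕ, ∀ ε : ℝ, 0 < ε → ∀ᶠ n : ℕ in atTop, ∀ q : ℕ, 1 ≤ q →
    |(q : ℝ) - (lam n * x + c n)| ≤ Real.log (N n) ^ W → ∀ h : ℕ, 1 ≤ h → (h : ℝ) ≤ Real.log (N n) ^ J → Good ε S (h * q)

/-- `μ` is a finite Borel measure with bounded support and its Fourier transform `ξ ↦ ∫ exp (i ξ t) dμ (t)` is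
`O (|ξ| ^ (-δ))` for some `δ > 0`. -/
def FourierDecay (μ : Measure ℝ) : Prop :=
  IsFiniteMeasure μ ∧ (∃ R : ℝ, μ (Set.Icc (-R) R)ᶜ = 0) ∧ ∃ C δ : ℝ, 0 < δ ∧ ∀ ξ : ℝ, ξ ≠ 0 →
    ‖∫ t : ℝ, Complex.exp (((ξ * t : ℝ) : ℂ) * Complex.I) ∂μ‖ ≤ C * |ξ| ^ (-δ)

lemma good_mono {ε ε' : ℝ} (h : ε ≤ ε') {S q : ℕ} (hG : Good ε S q) : Good ε' S q := by
  intro y hy1 hy2
  exact (hG y hy1 hy2).trans (mul_le_mul_of_nonneg_right (by linarith) (Nat.cast_nonneg _))

lemma good_of (ε : ℝ) (hε : 0 < ε) (hε1 : ε ≤ 1) (S : ℕ) : ∃ Q₀ : ℕ, ∀ Q : ℕ, Q₀ ≤ Q →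
    (∀ x : ℝ, (Q : ℝ) ≤ x → x ≤ Q * Real.log Q ^ S →
    |Pool.Agent.TH894.PV.G x Q - x * Real.log Q| ≤ ε / 4 * (x * Real.log Q)) → Good ε S Q := by
  obtain ⟨Q₀, h⟩ := Pool.Agent.R501.LP.lpg_of_var S ε hε hε1
  refine ⟨Q₀ + 2, fun Q hQ hvar x hx1 hx2 => ?_⟩
  exact ((Pool.Agent.R501.LP.lpg_iff ε S Q (by omega)).1 (h Q (by omega) hvar) x hx1 hx2).1

/-- Let `η > 0`, `B`, `T` and sequences `N`, `lam`, `c` with `Scales η B T N lam c` be given. Then almost every real number
`x` is generic with respect to every measure `μ` with `FourierDecay μ`: for all `J`, `S`, `W`, `ε > 0` and all large `n`, for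
ALL the multiples `d = h q` with `1 ≤ h ≤ log ^ J (N n)` of ALL the integers `q ≥ 1` with
`|q - (lam n * x + c n)| ≤ log ^ W (N n)` and for all real `y = t φ(d) log d` with `d ≤ y ≤ d log ^ S d`, all but at most
`(1 + ε) φ(d) / (1 + t)` of the reduced residue classes modulo `d` contain a prime `≤ y`. -/
theorem result (η : ℝ) (hη : 0 < η) (B T : ℕ) (N : ℕ → ℕ) (lam c : ℕ → ℝ)
    (hS : Scales η B T N lam c) (μ : Measure ℝ) (hμ : FourierDecay μ) :
    ∀ᵐ x ∂μ, Generic N lam c x := by
  have key := Pool.Agent.Run7.h582.FM.ae_mult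
    (fun i : ℕ × ℕ => Good (1 / ((i.1 : ℝ) + 1)) i.2)
    (fun i J W => by
      have h1 : (1 : ℝ) / ((i.1 : ℝ) + 1) ≤ 1 := by
        rw [div_le_one (by positivity)]
        linarith [(Nat.cast_nonneg i.1 : (0 : ℝ) ≤ (i.1 : ℝ))]
      obtain ⟨Q₀, h0⟩ := good_of (1 / ((i.1 : ℝ) + 1)) (by positivity) h1 i.2
      exact Pool.Agent.Run7.h582.FM.thin_varT J W i.2 (1 / ((i.1 : ℝ) + 1) / 4) (by positivity) (by linarith) _ Q₀ h0)
    μ hμ η hη B T N lam c hS
  filter_upwards [key] with x hx J S W ε hε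
  obtain ⟨k, hk⟩ := exists_nat_one_div_lt hε
  filter_upwards [hx (k, S) J W] with n hn q hq hqn h hh1 hh2
  exact good_mono hk.le (hn q hq hqn h hh1 hh2)

end Pool.Agent.Results.MP_42948a_nt.FourierDecayMultiples
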