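import Pool.Agent.Run7.h844.RP.Main2
import Pool.Agent.R501.LP1

/-!
# Least primes in almost all classes, for all the multiples of the moduli near the values of generalised polynomials at primes

Method: exponential sums over primes with the phase of a generalised polynomial: derivative bounds uniform in the
coefficients, van der Corput differencing of all orders, bilinear sums, Vaughan's identity (after `Pool.Agent.H895R3.NK`,
`Pool.Agent.H373R2.T7`); a discrete Fejér kernel for the passage from real numbers to their integer parts, and a kernel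
estimate for the concentration on short intervals which needs only the large frequencies (library
`Pool.Agent.Run7.h844.RP`, after `Pool.Agent.N384.MQ`, `Pool.Agent.N193.PS`). The large spectrum of all the
multiples is thin, and the passage from such exponential sums to the variance of the primes for all the multiples of almost all
moduli is from the starting files (`Pool.Agent.Y958`, `Pool.Agent.Y885`, `Pool.Agent.TH894.PV`), in a generic form:
`Pool.Agent.N625.PT`.
-/

set_option autoImplicit false

namespace Pool.Agent.Results.MP_42948a_nt.ValuesAtPrimes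

open Finset

/-- The generalised polynomial `∑ a x * t ^ x`, `x ∈ F`, with real exponents and coefficients. -/
noncomputable def genPoly (F : Finset ℝ) (a : ℝ → ℝ) (t : ℝ) : ℝ := ∑ x ∈ F, a x * t ^ x

/-- `c` is the largest exponent; it is positive and not an integer, and its coefficient is not zero. -/
def Leading (F : Finset ℝ) (a : ℝ → ℝ) (c : ℝ) : Prop :=
  c ∈ F ∧ (∀ x ∈ F, x ≤ c) ∧ 0 < c ∧ (∀ m : ℕ, c ≠ m) ∧ a c ≠ 0

open Classical in
/-- The number of the reduced residue classes `a` modulo `d` whose least prime exceeds `x`. -/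
noncomputable def lateClasses (x : ℝ) (d : ℕ) : ℕ :=
  ((range d).filter (fun a => Nat.Coprime a d ∧ ∀ p : ℕ, p.Prime → (p : ℝ) ≤ x → ¬ p % d = a)).card

/-- For all real `x` with `d ≤ x ≤ d log ^ T d` the number of the reduced residue classes modulo `d` whose least prime exceeds
`x` is at most `(1 + ε) φ(d) / (1 + lam)`, where `x = lam φ(d) log d`. -/
def Good (ε : ℝ) (T d : ℕ) : Prop :=
  ∀ x : ℝ, (d : ℝ) ≤ x → x ≤ d * Real.log d ^ T →
    (lateClasses x d : ℝ) * (1 + x / ((Nat.totient d : ℝ) * Real.log d)) ≤ (1 + ε) * (Nat.totient d : ℝ)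

lemma good_of (ε : ℝ) (hε : 0 < ε) (hε1 : ε ≤ 1) (T : ℕ) : ∃ Q₀ : ℕ, ∀ Q : ℕ, Q₀ ≤ Q → (∀ x : ℝ, (Q : ℝ) ≤ x → x ≤ Q * Real.log Q ^ T →
    |Pool.Agent.TH894.PV.G x Q - x * Real.log Q| ≤ ε / 4 * (x * Real.log Q)) → Good ε T Q := by
  obtain ⟨Q₀, h⟩ := Pool.Agent.R501.LP.lpg_of_var T ε hε hε1
  refine ⟨Q₀ + 2, fun Q hQ hvar x hx1 hx2 => ?_⟩
  exact ((Pool.Agent.R501.LP.lpg_iff ε T Q (by omega)).1 (h Q (by omega) hvar) x hx1 hx2).1

/-- `Good` for all the multiples `h q`, `1 ≤ h ≤ H`, of all the integers `q > 0` at a distance of at most `R` from the real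
number `y`. -/
def Near (ε : ℝ) (T : ℕ) (H R y : ℝ) : Prop :=
  ∀ q : ℕ, 0 < q → |(q : ℝ) - y| ≤ R → ∀ h : ℕ, 1 ≤ h → (h : ℝ) ≤ H → Good ε T (h * q)

open Classical in
/-- Let `f` be a generalised polynomial whose largest exponent `c` is positive and not an integer, and let `J`, `T`, `W`, `U` and
`0 < ε ≤ 1` be fixed. If `X` is large and `z` is any real number with `|z| ≤ X ^ c`, then all the primes `X < p ≤ 2 X`, with at
most `X / log ^ U X` exceptions, have the following property: for ALL the multiples `d = h q` with `1 ≤ h ≤ log ^ J X` of ALL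
the integers `q > 0` at a distance of at most `log ^ W X` from `f(p) + z`, and all real `x = lam φ(d) log d` with
`d ≤ x ≤ d log ^ T d`, all but at most `(1 + ε) φ(d) / (1 + lam)` of the reduced residue classes modulo `d` contain a prime
`≤ x`. -/
theorem result (F : Finset ℝ) (a : ℝ → ℝ) (c : ℝ) (hF : Leading F a c) (J T W U : ℕ) (ε : ℝ) (hε : 0 < ε) (hε1 : ε ≤ 1) :
    ∃ X₀ : ℕ, ∀ X : ℕ, X₀ ≤ X → ∀ z : ℝ, |z| ≤ (X : ℝ) ^ c →
      (((Ioc X (2 * X)).filter fun p : ℕ =>
        p.Prime ∧ ¬ Near ε T (Real.log X ^ J) (Real.log X ^ W) (genPoly F a p + z)).card : ℝ) ≤ X / Real.log X ^ U := by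
  obtain ⟨Q₀, h0⟩ := good_of ε hε hε1 T
  exact Pool.Agent.Run7.h844.RP.var_primes F c hF.1 hF.2.2.2.1 hF.2.2.1 hF.2.1 a hF.2.2.2.2 J W T U (ε / 4) (by positivity)
    (by linarith) (Good ε T) Q₀ h0

end Pool.Agent.Results.MP_42948a_nt.ValuesAtPrimes
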